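import Pool.Agent.H6.LD.Stm

set_option autoImplicit false
open Filter Topology MeasureTheory

namespace Pool.Agent.H32.LD
open Pool.Agent.H6.LD

theorem bint (f : ℝ → ℝ) (hm : Measurable f) (C : ℝ) (hb : ∀ t, |f t| ≤ C) (a b : ℝ) :
    IntervalIntegrable f volume a b := by
  refine (intervalIntegrable_const (c := C)).mono_fun hm.aestronglyMeasurable ?_
  refine Eventually.of_forall fun t => ?_
  show ‖f t‖ ≤ ‖C‖
  rw [Real.norm_eq_abs, Real.norm_eq_abs]
  exact (hb t).trans (le_abs_self C)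

theorem mean_norm (f : ℝ → ℂ) (a : ℂ) (C : ℝ) (h : HasMean f a) (hb : ∀ t, ‖f t‖ ≤ C) : ‖a‖ ≤ C := by
  refine le_of_tendsto h.norm ?_
  filter_upwards [eventually_gt_atTop (0:ℝ)] with T hT
  have h1 := intervalIntegral.norm_integral_le_of_norm_le_const (a := 0) (b := T) (f := f) (C := C)
    (fun t _ => hb t)
  rw [sub_zero, abs_of_pos hT] at h1
  rw [norm_mul, Complex.norm_real, Real.norm_eq_abs, abs_of_pos (by positivity)]
  calc 1 / T * ‖∫ t in (0:ℝ)..T, f t‖ ≤ 1 / T * (C * T) := by gcongr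
    _ = C := by field_simp

theorem key (hES1 : S_ES1) (M M' : AddSubgroup ℝ) (f g : ℝ → ℂ) (hf : AP M f) (hg : AP M' g)
    (C : ℝ) (hC : 1 ≤ C) (hgC : ∀ t, ‖g t‖ ≤ C) (ε : ℝ) (hε : 0 < ε) :
    ∃ q ∈ ES M, ∃ q' ∈ ES M', ∃ B : ℝ, 1 ≤ B ∧ (∀ t, ‖q t‖ ≤ B) ∧
      (∃ T0 : ℝ, ∀ T, T0 ≤ T → ∫ t in (0 : ℝ)..T, ‖f t - q t‖ ≤ ε / (2 * C) * T) ∧
      (∃ T0 : ℝ, ∀ T, T0 ≤ T → ∫ t in (0 : ℝ)..T, ‖g t - q' t‖ ≤ ε / (2 * B) * T) ∧
      (∃ T0 : ℝ, ∀ T, T0 ≤ T → ∫ t in (0 : ℝ)..T, ‖(f * g) t - (q * q') t‖ ≤ ε * T) := by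
  obtain ⟨q, hq, T1, h1⟩ := hf.app (ε / (2 * C)) (by positivity)
  obtain ⟨qc, ⟨B0, hB0⟩, -⟩ := hES1 M q hq
  have hB : 1 ≤ max B0 1 := le_max_right _ _
  have hqB : ∀ t, ‖q t‖ ≤ max B0 1 := fun t => (hB0 t).trans (le_max_left _ _)
  obtain ⟨q', hq', T2, h2⟩ := hg.app (ε / (2 * max B0 1)) (by positivity)
  obtain ⟨qc', ⟨B1, hB1⟩, -⟩ := hES1 M' q' hq'
  refine ⟨q, hq, q', hq', max B0 1, hB, hqB, ⟨T1, h1⟩, ⟨T2, h2⟩, max (max T1 T2) 0, fun T hT => ?_⟩
  have hT1 : T1 ≤ T := ((le_max_left _ _).trans (le_max_left _ _)).trans hT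
  have hT2 : T2 ≤ T := ((le_max_right _ _).trans (le_max_left _ _)).trans hT
  have hT0 : 0 ≤ T := (le_max_right _ _).trans hT
  obtain ⟨Cf, hCf⟩ := hf.bdd
  have m1 : Measurable fun t => ‖f t - q t‖ := (hf.meas.sub qc.measurable).norm
  have m2 : Measurable fun t => ‖g t - q' t‖ := (hg.meas.sub qc'.measurable).norm
  have m3 : Measurable fun t => ‖(f * g) t - (q * q') t‖ :=
    ((hf.meas.mul hg.meas).sub (qc.measurable.mul qc'.measurable)).norm
  have b1 : ∀ t, ‖f t - q t‖ ≤ Cf + max B0 1 := fun t =>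
    (norm_sub_le _ _).trans (add_le_add (hCf t) (hqB t))
  have b2 : ∀ t, ‖g t - q' t‖ ≤ C + B1 := fun t =>
    (norm_sub_le _ _).trans (add_le_add (hgC t) (hB1 t))
  have pw : ∀ t, ‖(f * g) t - (q * q') t‖ ≤ ‖f t - q t‖ * C + max B0 1 * ‖g t - q' t‖ := by
    intro t
    have e : (f * g) t - (q * q') t = (f t - q t) * g t + q t * (g t - q' t) := by
      simp only [Pi.mul_apply]; ring
    rw [e]
    refine (norm_add_le _ _).trans ?_
    rw [norm_mul, norm_mul]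
    exact add_le_add (mul_le_mul_of_nonneg_left (hgC t) (norm_nonneg _))
      (mul_le_mul_of_nonneg_right (hqB t) (norm_nonneg _))
  have b3 : ∀ t, ‖(f * g) t - (q * q') t‖ ≤ (Cf + max B0 1) * C + max B0 1 * (C + B1) := fun t =>
    (pw t).trans (add_le_add (mul_le_mul_of_nonneg_right (b1 t) (by linarith))
      (mul_le_mul_of_nonneg_left (b2 t) (by linarith)))
  have i1 := bint _ m1 _ (fun t => by rw [abs_norm]; exact b1 t) 0 T
  have i2 := bint _ m2 _ (fun t => by rw [abs_norm]; exact b2 t) 0 T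
  have i3 := bint _ m3 _ (fun t => by rw [abs_norm]; exact b3 t) 0 T
  calc ∫ t in (0 : ℝ)..T, ‖(f * g) t - (q * q') t‖
      ≤ ∫ t in (0 : ℝ)..T, (‖f t - q t‖ * C + max B0 1 * ‖g t - q' t‖) :=
        intervalIntegral.integral_mono_on hT0 i3 ((i1.mul_const C).add (i2.const_mul _))
          fun t _ => pw t
    _ = (∫ t in (0 : ℝ)..T, ‖f t - q t‖) * C + max B0 1 * ∫ t in (0 : ℝ)..T, ‖g t - q' t‖ := by
        rw [intervalIntegral.integral_add (i1.mul_const C) (i2.const_mul _),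
          intervalIntegral.integral_mul_const, intervalIntegral.integral_const_mul]
    _ ≤ (ε / (2 * C) * T) * C + max B0 1 * (ε / (2 * max B0 1) * T) :=
        add_le_add (mul_le_mul_of_nonneg_right (h1 T hT1) (by linarith))
          (mul_le_mul_of_nonneg_left (h2 T hT2) (by linarith))
    _ = ε * T := by
        have : C ≠ 0 := by positivity
        have : max B0 1 ≠ 0 := by positivity
        field_simp
        ring

theorem t_AP2 (hES1 : S_ES1) (hES2 : S_ES2) (hAP1 : S_AP1) : S_AP2 := by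
  intro M M' f g hf hg
  obtain ⟨C0, hC0⟩ := hg.bdd
  have hC : 1 ≤ max C0 1 := le_max_right _ _
  have hgC : ∀ t, ‖g t‖ ≤ max C0 1 := fun t => (hC0 t).trans (le_max_left _ _)
  have hAP : AP (M ⊔ M') (f * g) := by
    obtain ⟨Cf, hCf⟩ := hf.bdd
    refine ⟨hf.meas.mul hg.meas, ⟨Cf * max C0 1, fun t => ?_⟩, fun ε hε => ?_⟩
    · rw [Pi.mul_apply, norm_mul]
      exact mul_le_mul (hCf t) (hgC t) (norm_nonneg _) ((norm_nonneg _).trans (hCf t))
    · obtain ⟨q, hq, q', hq', B, -, -, -, -, h⟩ := key hES1 M M' f g hf hg _ hC hgC ε hε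
      exact ⟨q * q', (hES2 M M' q q' hq hq').1, h⟩
  refine ⟨hAP, fun hM a b ha hb => ?_⟩
  obtain ⟨c, hc⟩ := (hAP1 _ _ hAP).1
  have hcab : c = a * b := by
    by_contra hne
    have hpos : 0 < ‖c - a * b‖ := norm_pos_iff.2 (sub_ne_zero.2 hne)
    obtain ⟨q, hq, q', hq', B, hB, hqB, h1, h2, h3⟩ := key hES1 M M' f g hf hg _ hC hgC
      (‖c - a * b‖ / 3) (by positivity)
    obtain ⟨-, -, n, hn⟩ := hES1 M q hq
    obtain ⟨-, -, n', hn'⟩ := hES1 M' q' hq'
    have e1 := (hAP1 M f hf).2 q _ hq h1 a n ha hn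
    have e2 := (hAP1 M' g hg).2 q' _ hq' h2 b n' hb hn'
    have e3 := (hAP1 _ _ hAP).2 (q * q') _ (hES2 M M' q q' hq hq').1 h3 c (n * n') hc
      ((hES2 M M' q q' hq hq').2 hM n n' hn hn')
    have nb := mean_norm g b _ hb hgC
    have nn := mean_norm q n _ hn hqB
    set δ := ‖c - a * b‖ with hδ
    have e4 : ‖a * b - n * n'‖ ≤ δ / 3 := by
      have e : a * b - n * n' = (a - n) * b + n * (b - n') := by ring
      rw [e]
      refine (norm_add_le _ _).trans ?_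
      rw [norm_mul, norm_mul]
      calc ‖a - n‖ * ‖b‖ + ‖n‖ * ‖b - n'‖
          ≤ (δ / 3 / (2 * max C0 1)) * max C0 1 + B * (δ / 3 / (2 * B)) :=
            add_le_add (mul_le_mul e1 nb (norm_nonneg _) (by positivity))
              (mul_le_mul nn e2 (norm_nonneg _) (by linarith))
        _ = δ / 3 := by
            have : max C0 1 ≠ 0 := by positivity
            have : B ≠ 0 := by positivity
            field_simp
            norm_num
    have e5 : δ ≤ ‖c - n * n'‖ + ‖a * b - n * n'‖ := by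
      rw [hδ]
      have e : c - a * b = (c - n * n') - (a * b - n * n') := by ring
      conv_lhs => rw [e]
      exact norm_sub_le _ _
    linarith
  rw [← hcab]; exact hc

end Pool.Agent.H32.LD
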