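import Pool.Agent.H6.LD.Stm

set_option autoImplicit false
open Filter Topology MeasureTheory

namespace Pool.Agent.H32.LD
open Pool.Agent.H6.LD

theorem expo_cont (l : ℝ) : Continuous (expo l) := by
  unfold expo; fun_prop

theorem expo_norm (l t : ℝ) : ‖expo l t‖ = 1 := by
  unfold expo; exact Complex.norm_exp_ofReal_mul_I _

theorem expo_mean (l : ℝ) : ∃ m, HasMean (expo l) m := by
  by_cases h : l = 0
  · refine ⟨1, ?_⟩
    subst h
    unfold HasMean
    refine (tendsto_const_nhds (x := (1:ℂ))).congr' ?_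
    filter_upwards [eventually_gt_atTop (0:ℝ)] with T hT
    have h1 : expo 0 = fun _ => 1 := by funext t; simp [expo]
    have h2 : (T : ℂ) ≠ 0 := by exact_mod_cast hT.ne'
    rw [h1, intervalIntegral.integral_const]
    simp only [sub_zero, Complex.real_smul, mul_one]
    push_cast
    field_simp
  · refine ⟨0, ?_⟩
    unfold HasMean
    have h1 : ∀ T : ℝ, ∫ t in (0:ℝ)..T, expo l t
        = (Complex.exp ((l * Complex.I) * T) - 1) / (l * Complex.I) := by
      intro T
      have := integral_exp_mul_complex (a := 0) (b := T) (c := (l:ℂ) * Complex.I) (by simp [h])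
      simp only [Complex.ofReal_zero, mul_zero, Complex.exp_zero] at this
      rw [← this]
      apply intervalIntegral.integral_congr
      intro t _
      simp only [expo]
      congr 1
      push_cast; ring
    apply squeeze_zero_norm' (a := fun T : ℝ => T⁻¹ * (2 / |l|))
    · filter_upwards [eventually_gt_atTop (0:ℝ)] with T hT
      rw [h1, norm_mul, norm_div, norm_mul, Complex.norm_I, mul_one, Complex.norm_real,
        Complex.norm_real, Real.norm_eq_abs, Real.norm_eq_abs, abs_of_pos (by positivity), one_div]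
      gcongr
      calc ‖Complex.exp ((l * Complex.I) * T) - 1‖
          ≤ ‖Complex.exp ((l * Complex.I) * T)‖ + ‖(1:ℂ)‖ := norm_sub_le _ _
        _ = 2 := by
            have h3 : (l * Complex.I) * (T:ℂ) = ((l * T : ℝ) : ℂ) * Complex.I := by push_cast; ring
            rw [h3, Complex.norm_exp_ofReal_mul_I]; norm_num
    · have := (tendsto_inv_atTop_zero (𝕜 := ℝ)).mul_const (2 / |l|)
      rwa [zero_mul] at this

theorem t_ES1 : S_ES1 := by
  intro M q hq
  unfold ES at hq
  induction hq using Submodule.span_induction with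
  | mem x hx =>
    obtain ⟨l, -, rfl⟩ := hx
    exact ⟨expo_cont l, ⟨1, fun t => (expo_norm l t).le⟩, expo_mean l⟩
  | zero =>
    refine ⟨continuous_const, ⟨0, fun t => by simp⟩, 0, ?_⟩
    unfold HasMean
    simp
  | add x y hx hy ihx ihy =>
    obtain ⟨cx, ⟨Cx, bx⟩, mx, hmx⟩ := ihx
    obtain ⟨cy, ⟨Cy, bY⟩, my, hmy⟩ := ihy
    refine ⟨cx.add cy, ⟨Cx + Cy, fun t => (norm_add_le _ _).trans (add_le_add (bx t) (bY t))⟩,
      mx + my, ?_⟩
    unfold HasMean at *
    refine (hmx.add hmy).congr fun T => ?_
    rw [← mul_add, ← intervalIntegral.integral_add (cx.intervalIntegrable _ _)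
      (cy.intervalIntegrable _ _)]
    rfl
  | smul a x hx ih =>
    obtain ⟨cx, ⟨Cx, bx⟩, mx, hmx⟩ := ih
    refine ⟨cx.const_smul a, ⟨‖a‖ * Cx, fun t => ?_⟩, a * mx, ?_⟩
    · rw [Pi.smul_apply, norm_smul]
      exact mul_le_mul_of_nonneg_left (bx t) (norm_nonneg _)
    · unfold HasMean at *
      refine (hmx.const_mul a).congr fun T => ?_
      have : ∫ t in (0:ℝ)..T, (a • x) t = a * ∫ t in (0:ℝ)..T, x t := by
        rw [← intervalIntegral.integral_const_mul]
        rfl
      rw [this]; ring

end Pool.Agent.H32.LD
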